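import Pool.Agent.Lib.MP_8f66f0_al_WaldTL.Defs

/-! A6: exactness of the chain complex of the tree over `LL[E]` (after helper33). -/

set_option autoImplicit false

namespace Pool.Agent.WaldTL

open Pool.Agent.Wald Pool.Agent.WaldT Finsupp

/-- a chain with integral coefficients, multiplied by an element of a ring -/
private noncomputable def bdExt {X R : Type} [Ring R] (r : R) : (X →₀ ℤ) →+ (X →₀ R) :=
  Finsupp.mapRange.addMonoidHom (zmultiplesHom R r)

private theorem bdExt_apply {X R : Type} [Ring R] (r : R) (c : X →₀ ℤ) (x : X) :
    bdExt r c x = c x • r := rfl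

private theorem bdExt_single {X R : Type} [Ring R] (r : R) (x : X) :
    bdExt r (single x 1) = single x r := by
  have h : bdExt r (single x (1 : ℤ)) = single x ((1 : ℤ) • r) :=
    Finsupp.mapRange_single (f := zmultiplesHom R r) (hf := map_zero _)
  rw [h, one_smul]

private theorem bdExt_mapDomain {X Y R : Type} [Ring R] (f : X → Y) (r : R) (c : X →₀ ℤ) :
    (bdExt r c).mapDomain f = bdExt r (c.mapDomain f) :=
  Finsupp.mapDomain_mapRange f c (zmultiplesHom R r) (map_zero _) (map_add _)

private theorem bdExt_zero {X R : Type} [Ring R] (c : X →₀ ℤ) : bdExt (0 : R) c = 0 := by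
  ext x
  rw [bdExt_apply, smul_zero]
  rfl

private theorem bdExt_add {X R : Type} [Ring R] (r s : R) (c : X →₀ ℤ) :
    bdExt (r + s) c = bdExt r c + bdExt s c := by
  ext x
  rw [Finsupp.add_apply, bdExt_apply, bdExt_apply, bdExt_apply, smul_add]

private theorem bd_apply (LL : Type) {E : Type} [CommRing LL] [Group E] (T : TreeAct E)
    (z : T.Ed →₀ MonoidAlgebra LL E) : bd LL T z = z.mapDomain T.t - z.mapDomain T.o := rfl

/-- The contraction of the chain complex. -/
private noncomputable def bdS {E : Type} [Group E] (T : TreeAct E) (R : Type) [Ring R]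
    (c : T.V → (T.Ed →₀ ℤ)) : (T.V →₀ R) →+ (T.Ed →₀ R) :=
  Finsupp.liftAddHom fun v => AddMonoidHom.mk' (fun r => bdExt r (c v)) fun r s => bdExt_add r s _

private theorem bdS_single {E : Type} [Group E] (T : TreeAct E) (R : Type) [Ring R]
    (c : T.V → (T.Ed →₀ ℤ)) (v : T.V) (r : R) : bdS T R c (single v r) = bdExt r (c v) := by
  unfold bdS
  rw [Finsupp.liftAddHom_apply_single]
  rfl

theorem bdE (LL : Type) [CommRing LL] : S_BdE LL := by
  classical
  intro E _ T
  choose c hc using T.conn
  refine ⟨fun z hz => ?_, ?_⟩
  · have h1 : ∀ e : T.Ed, c (T.t e) - c (T.o e) = single e 1 := by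
      intro e
      have h2 : c (T.t e) - c (T.o e) - single e 1 = 0 := by
        apply T.acyc
        have h3 := hc (T.t e)
        have h4 := hc (T.o e)
        have hm : ∀ (f : T.Ed → T.V) (a b : T.Ed →₀ ℤ),
            (a - b).mapDomain f = a.mapDomain f - b.mapDomain f := fun f a b =>
          map_sub (Finsupp.mapDomain.addMonoidHom f) a b
        rw [hm, hm, hm, hm, Finsupp.mapDomain_single, Finsupp.mapDomain_single]
        have h5 : (c (T.t e)).mapDomain T.t =
            (c (T.t e)).mapDomain T.o + (single (T.t e) 1 - single T.root 1) := by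
          rw [← h3]
          abel
        have h6 : (c (T.o e)).mapDomain T.t =
            (c (T.o e)).mapDomain T.o + (single (T.o e) 1 - single T.root 1) := by
          rw [← h4]
          abel
        rw [h5, h6]
        abel
      exact sub_eq_zero.1 h2
    have h7 : ∀ z : T.Ed →₀ MonoidAlgebra LL E,
        bdS T (MonoidAlgebra LL E) c (bd LL T z) = z := by
      intro z
      induction z using Finsupp.induction_linear with
      | zero => rw [map_zero, map_zero]
      | add z w hz hw => rw [map_add, map_add, hz, hw]
      | single e r =>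
        rw [bd_apply, Finsupp.mapDomain_single, Finsupp.mapDomain_single, map_sub, bdS_single,
          bdS_single, ← map_sub, h1, bdExt_single]
    rw [← h7 z, hz, map_zero]
  · refine ⟨fun v => (c v).support, fun y hy => ⟨y.sum fun v r => bdExt r (c v), ?_, ?_⟩⟩
    · rw [Finsupp.sum, map_sum]
      have h1 : ∀ v ∈ y.support,
          bd LL T (bdExt (y v) (c v)) = single v (y v) - single T.root (y v) :=
        fun v _ => by
          rw [bd_apply, bdExt_mapDomain, bdExt_mapDomain, ← map_sub, hc, map_sub, bdExt_single,
            bdExt_single]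
      rw [Finset.sum_congr rfl h1, Finset.sum_sub_distrib]
      have h2 : ∑ v ∈ y.support, single v (y v) = y := Finsupp.sum_single y
      have h3 : ∑ v ∈ y.support, single T.root (y v) = single T.root (∑ v ∈ y.support, y v) :=
        (map_sum (Finsupp.singleAddHom T.root) y y.support).symm
      have h4 : ∑ v ∈ y.support, y v = 0 := by
        rw [Finsupp.linearCombination_apply, Finsupp.sum] at hy
        rw [← hy]
        exact Finset.sum_congr rfl fun v _ => by rw [smul_eq_mul, mul_one]
      rw [h2, h3, h4, single_zero, sub_zero]
    · intro e he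
      by_contra hcon
      push Not at hcon
      apply he
      rw [Finsupp.sum, Finsupp.finsetSum_apply]
      refine Finset.sum_eq_zero fun v hv => ?_
      have h5 := hcon v (Finsupp.mem_support_iff.1 hv)
      rw [bdExt_apply, Finsupp.notMem_support_iff.1 h5, zero_smul]

end Pool.Agent.WaldTL
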