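import Mathlib
import Pool.Agent.Lib.MP_8f66f0_al_WaldT.Defs

/-! The constructions of WaldT with coefficients in a commutative ring `LL`. -/

set_option autoImplicit false

namespace Pool.Agent.WaldTL

open Pool.Agent.Wald Pool.Agent.WaldT Finsupp

section Dx

variable {LL E X : Type} [CommRing LL] [Group E] [MulAction E X]

/-- The element `r ⊗ x` of the twisted module `LL[E] ⊗ LL[X]`, written in the free
`LL[E]`-module with basis `X` by means of `g ⊗ x = g [g⁻¹ x]`. -/
noncomputable def dx (x : X) (r : MonoidAlgebra LL E) : X →₀ MonoidAlgebra LL E :=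
  r.coeff.sum fun g a => single (g⁻¹ • x) (MonoidAlgebra.single g a)

/-- The map induced by a matrix `h` on the twisted modules. -/
noncomputable def tw {A B : Type} [Fintype A] (h : A → B → MonoidAlgebra LL E)
    (z : A → (X →₀ MonoidAlgebra LL E)) (b : B) : X →₀ MonoidAlgebra LL E :=
  ∑ a, Finsupp.linearCombination (MonoidAlgebra LL E) (fun x : X => dx x (h a b)) (z a)

end Dx

section Bd

variable (LL : Type) {E : Type} [CommRing LL] [Group E] (T : TreeAct E)

/-- The boundary map of the tree with coefficients in the group ring. -/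
noncomputable def bd : (T.Ed →₀ MonoidAlgebra LL E) →ₗ[MonoidAlgebra LL E]
    (T.V →₀ MonoidAlgebra LL E) :=
  Finsupp.lmapDomain (MonoidAlgebra LL E) (MonoidAlgebra LL E) T.t -
    Finsupp.lmapDomain (MonoidAlgebra LL E) (MonoidAlgebra LL E) T.o

end Bd

section Spec

variable (LL : Type) [CommRing LL]

/-- A1. Basic properties of `dx`. -/
def S_DxA : Prop :=
  ∀ (E X Y : Type) [Group E] [MulAction E X] [MulAction E Y],
    (∀ (x : X) (g : E) (a : LL), dx x (MonoidAlgebra.single g a) =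
      single (g⁻¹ • x) (MonoidAlgebra.single g a)) ∧
    (∀ x : X, dx x (0 : MonoidAlgebra LL E) = 0) ∧
    (∀ (x : X) (r s : MonoidAlgebra LL E), dx x (r + s) = dx x r + dx x s) ∧
    (∀ (x : X) (g : E) (a : LL) (r : MonoidAlgebra LL E),
      dx (g • x) (MonoidAlgebra.single g a * r) =
      (MonoidAlgebra.single g a : MonoidAlgebra LL E) • dx x r) ∧
    (∀ (x : X) (c : MonoidAlgebra LL (MulAction.stabilizer E x)) (r : MonoidAlgebra LL E),
      dx x (MonoidAlgebra.mapDomainRingHom LL (MulAction.stabilizer E x).subtype c * r) =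
        MonoidAlgebra.mapDomainRingHom LL (MulAction.stabilizer E x).subtype c • dx x r) ∧
    (∀ (x : X) (r : MonoidAlgebra LL E), Finsupp.linearCombination (MonoidAlgebra LL E)
      (fun _ : X => (1 : MonoidAlgebra LL E)) (dx x r) = r) ∧
    (∀ (f : X → Y), (∀ (g : E) (x : X), f (g • x) = g • f x) →
      ∀ (x : X) (r : MonoidAlgebra LL E), (dx x r).mapDomain f = dx (f x) r)

/-- A2. Slices. -/
def S_DxSl : Prop :=
  ∀ (E X : Type) [Group E] [MulAction E X],
    (∀ (S : Finset X) (r : X → MonoidAlgebra LL E), ∑ x ∈ S, dx x (r x) = 0 → ∀ x ∈ S, r x = 0) ∧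
    (∀ (A : Type) [Fintype A] (z : A → (X →₀ MonoidAlgebra LL E)),
      ∃ (S : Finset X) (κ : X → A → MonoidAlgebra LL E), ∀ a, z a = ∑ x ∈ S, dx x (κ x a))

/-- A3. The twisted map of a matrix. -/
def S_Tw : Prop :=
  ∀ (E X Y : Type) [Group E] [MulAction E X] [MulAction E Y] (A B : Type) [Fintype A] [Fintype B]
    (h : A → B → MonoidAlgebra LL E),
    (∀ (x : X) (m : A → MonoidAlgebra LL E) (b : B), tw h (fun a => dx x (m a)) b =
      dx x (∑ a, m a * h a b)) ∧
    (∀ (Q : Type) [Fintype Q] (c : Q → MonoidAlgebra LL E) (z : Q → A → (X →₀ MonoidAlgebra LL E))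
      (b : B), tw h (fun a => ∑ q, c q • z q a) b = ∑ q, c q • tw h (z q) b) ∧
    (∀ (f : X → Y), (∀ (g : E) (x : X), f (g • x) = g • f x) →
      ∀ (z : A → (X →₀ MonoidAlgebra LL E)) (b : B),
        tw h (fun a => (z a).mapDomain f) b = (tw h z b).mapDomain f) ∧
    (∀ (S : Finset X) (κ : X → A → MonoidAlgebra LL E),
      (∀ b, tw h (fun a => ∑ x ∈ S, dx x (κ x a)) b = 0) → ∀ x ∈ S, ∀ b, ∑ a, κ x a * h a b = 0)

/-- A4. Relations of finitely many elements at one point are finitely generated. -/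
def S_RelOne : Prop :=
  ∀ (E X : Type) [Group E] [MulAction E X] (y : X),
    KerFG (MonoidAlgebra LL (MulAction.stabilizer E y)) →
    ∀ (A Q : Type) [Fintype A] [Fintype Q] (m : Q → A → MonoidAlgebra LL E),
      ∃ (T : ℕ) (ρ : Fin T → Q → MonoidAlgebra LL E),
        (∀ i a, ∑ q, ρ i q • dx y (m q a) = 0) ∧
        ∀ c : Q → MonoidAlgebra LL E, (∀ a, ∑ q, c q • dx y (m q a) = 0) →
          ∃ z : Fin T → MonoidAlgebra LL E, ∀ q, c q = ∑ i, z i * ρ i q

/-- A5. Relations of finitely many elements at arbitrary points are finitely generated. -/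
def S_Rel : Prop :=
  ∀ (E X : Type) [Group E] [MulAction E X],
    (∀ x : X, KerFG (MonoidAlgebra LL (MulAction.stabilizer E x))) →
    ∀ (A Q : Type) [Fintype A] [Fintype Q] (x : Q → X) (m : Q → A → MonoidAlgebra LL E),
      ∃ (T : ℕ) (ρ : Fin T → Q → MonoidAlgebra LL E),
        (∀ i a, ∑ q, ρ i q • dx (x q) (m q a) = 0) ∧
        ∀ c : Q → MonoidAlgebra LL E, (∀ a, ∑ q, c q • dx (x q) (m q a) = 0) →
          ∃ z : Fin T → MonoidAlgebra LL E, ∀ q, c q = ∑ i, z i * ρ i q

/-- A6. Exactness of the chain complex of the tree. -/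
def S_BdE : Prop :=
  ∀ (E : Type) [Group E] (T : TreeAct E),
    (∀ z, bd LL T z = 0 → z = 0) ∧
    ∃ C : T.V → Finset T.Ed, ∀ y : T.V →₀ MonoidAlgebra LL E,
      Finsupp.linearCombination (MonoidAlgebra LL E) (fun _ : T.V => (1 : MonoidAlgebra LL E)) y
        = 0 →
      ∃ z, bd LL T z = y ∧ ∀ e, z e ≠ 0 → ∃ v, y v ≠ 0 ∧ e ∈ C v

/-- A7. (C1) for groups acting on trees with coherent stabilizers. -/
def S_C1T : Prop :=
  ∀ (E : Type) [Group E] (T : TreeAct E),
    (∀ v : T.V, KerFG (MonoidAlgebra LL (MulAction.stabilizer E v))) →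
    (∀ e : T.Ed, KerFG (MonoidAlgebra LL (MulAction.stabilizer E e))) →
    C1 (MonoidAlgebra LL E)

end Spec

end Pool.Agent.WaldTL
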