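import Mathlib
import Pool.Agent.Lib.MP_8f66f0_al_WaldTL.Defs
import Pool.Agent.Lib.MP_8f66f0_al_WaldL.Supp
import Pool.Agent.Lib.MP_8f66f0_al_WaldL.GrFlat

/-! MP_8f66f0_al, WaldT, A4: relations of finitely many elements at one point are finitely
generated. -/

set_option autoImplicit false

namespace Pool.Agent.WaldTL

open Pool.Agent.WaldL Pool.Agent.WaldT Finsupp
open Pool.Agent.Wald (emb bc RFlat C1)

namespace RelOneAux

/-- The relations of the rows of a matrix over `LLC` are finitely generated, also over `LLE`. -/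
theorem fgRel {LL : Type} [CommRing LL] {C E : Type} [Group C] [Group E] (φ : C →* E) (hφ : Function.Injective φ)
    (hC : KerFG (MonoidAlgebra LL C)) (Q B : Type) [Fintype Q] [Fintype B]
    (M : Q → B → MonoidAlgebra LL C) :
    ∃ (T : ℕ) (κ : Fin T → Q → MonoidAlgebra LL C),
      (∀ i b, ∑ q, κ i q * M q b = 0) ∧
      ∀ c : Q → MonoidAlgebra LL E, (∀ b, ∑ q, c q * inc φ (M q b) = 0) →
        ∃ z : Fin T → MonoidAlgebra LL E, ∀ q, c q = ∑ i, z i * inc φ (κ i q) := by
  classical
  let eQ := Fintype.equivFin Q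
  let eB := Fintype.equivFin B
  let h : Matrix (Fin (Fintype.card Q)) (Fin (Fintype.card B)) (MonoidAlgebra LL C) :=
    fun i j => M (eQ.symm i) (eB.symm j)
  obtain ⟨T, s, hs⟩ := Submodule.fg_iff_exists_fin_generating_family.1 (hC _ _ h)
  have hsum : ∀ (v : Fin (Fintype.card Q) → MonoidAlgebra LL C) (b : B),
      ∑ q, v (eQ q) * M q b = ∑ i, v i * h i (eB b) := by
    intro v b
    rw [← Equiv.sum_comp eQ (fun i => v i * h i (eB b))]
    refine Finset.sum_congr rfl fun q _ => ?_
    show v (eQ q) * M q b = v (eQ q) * M (eQ.symm (eQ q)) (eB.symm (eB b))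
    rw [Equiv.symm_apply_apply, Equiv.symm_apply_apply]
  have hmem : ∀ v : Fin (Fintype.card Q) → MonoidAlgebra LL C,
      v ∈ LinearMap.ker (Matrix.vecMulLinear h) ↔ ∀ b, ∑ q, v (eQ q) * M q b = 0 := by
    intro v
    rw [LinearMap.mem_ker]
    constructor
    · intro hv b
      rw [hsum]
      exact congrFun hv (eB b)
    · intro hv
      funext j
      obtain ⟨b, rfl⟩ := eB.surjective j
      have := hv b
      rw [hsum] at this
      exact this
  refine ⟨T, fun i q => s i (eQ q), fun i b => ?_, fun c hc => ?_⟩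
  · have h1 : s i ∈ LinearMap.ker (Matrix.vecMulLinear h) := by
      rw [← hs]
      exact Submodule.subset_span ⟨i, rfl⟩
    exact (hmem _).1 h1 b
  · let := modH LL φ
    have := towerH LL φ
    let g : (Q →₀ MonoidAlgebra LL C) →ₗ[MonoidAlgebra LL C] (B →₀ MonoidAlgebra LL C) :=
      Finsupp.linearCombination (MonoidAlgebra LL C)
        (fun q => Finsupp.equivFunOnFinite.symm (M q))
    have hg : ∀ k : Q →₀ MonoidAlgebra LL C, ∀ b, g k b = ∑ q, k q * M q b := by
      intro k b
      show (Finsupp.linearCombination (MonoidAlgebra LL C)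
        (fun q => Finsupp.equivFunOnFinite.symm (M q)) k) b = _
      rw [Finsupp.linearCombination_apply, Finsupp.sum_fintype]
      · rw [Finsupp.finsetSum_apply]
        refine Finset.sum_congr rfl fun q _ => ?_
        rw [Finsupp.smul_apply, smul_eq_mul]
        rfl
      · exact fun i => zero_smul _ _
    have hemb : ∀ (J : Type) (k : J →₀ MonoidAlgebra LL C) (j : J),
        emb (MonoidAlgebra LL C) (MonoidAlgebra LL E) J k j = inc φ (k j) := by
      intro J k j
      show inc φ (k j) * 1 = _
      rw [mul_one]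
    have hy : bc (MonoidAlgebra LL E) g (Finsupp.equivFunOnFinite.symm c) = 0 := by
      ext1 b
      unfold bc
      rw [Finsupp.linearCombination_apply, Finsupp.sum_fintype]
      · rw [Finsupp.finsetSum_apply, Finsupp.zero_apply, ← hc b]
        refine Finset.sum_congr rfl fun q _ => ?_
        rw [Finsupp.smul_apply, smul_eq_mul, hemb, hg]
        congr 2
        rw [Finset.sum_eq_single q]
        · rw [Finsupp.single_eq_same, one_mul]
        · intro q' _ hq'
          rw [Finsupp.single_eq_of_ne hq', zero_mul]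
        · intro hq
          exact absurd (Finset.mem_univ q) hq
      · exact fun i => zero_smul _ _
    have h1 := rflat_gr φ hφ Q B g _ hy
    have h2 : ∀ y ∈ Submodule.span (MonoidAlgebra LL E)
        (emb (MonoidAlgebra LL C) (MonoidAlgebra LL E) Q '' (LinearMap.ker g :
          Set (Q →₀ MonoidAlgebra LL C))),
        ∃ z : Fin T → MonoidAlgebra LL E, ∀ q, y q = ∑ i, z i * inc φ (s i (eQ q)) := by
      intro y hy
      induction hy using Submodule.span_induction with
      | mem y hy =>
        obtain ⟨k, hk, rfl⟩ := hy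
        have h3 : (fun i => k (eQ.symm i)) ∈ LinearMap.ker (Matrix.vecMulLinear h) := by
          rw [hmem]
          intro b
          have h4 := hg k b
          rw [LinearMap.mem_ker.1 hk, Finsupp.zero_apply] at h4
          rw [h4]
          refine Finset.sum_congr rfl fun q _ => ?_
          rw [Equiv.symm_apply_apply]
        rw [← hs, Submodule.mem_span_range_iff_exists_fun] at h3
        obtain ⟨w, hw⟩ := h3
        refine ⟨fun i => inc φ (w i), fun q => ?_⟩
        rw [hemb]
        have h5 := congrFun hw (eQ q)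
        simp only [Equiv.symm_apply_apply] at h5
        rw [← h5, Finset.sum_apply, map_sum]
        refine Finset.sum_congr rfl fun i _ => ?_
        rw [Pi.smul_apply, smul_eq_mul, map_mul]
      | zero => exact ⟨0, fun q => by simp⟩
      | add y y' _ _ h3 h4 =>
        obtain ⟨z, hz⟩ := h3
        obtain ⟨z', hz'⟩ := h4
        refine ⟨z + z', fun q => ?_⟩
        rw [Finsupp.add_apply, hz, hz', ← Finset.sum_add_distrib]
        refine Finset.sum_congr rfl fun i _ => ?_
        rw [Pi.add_apply, add_mul]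
      | smul r y _ h3 =>
        obtain ⟨z, hz⟩ := h3
        refine ⟨fun i => r * z i, fun q => ?_⟩
        rw [Finsupp.smul_apply, smul_eq_mul, hz, Finset.mul_sum]
        refine Finset.sum_congr rfl fun i _ => ?_
        rw [mul_assoc]
    obtain ⟨z, hz⟩ := h2 _ h1
    exact ⟨z, fun q => hz q⟩

end RelOneAux

theorem relOne (LL : Type) [CommRing LL] (h1 : Pool.Agent.WaldTL.S_DxA LL) :
    Pool.Agent.WaldTL.S_RelOne LL := by
  classical
  intro E X _ _ y hK A Q _ _ m
  obtain ⟨d1, d2, d3, -, -, -, -⟩ := h1 E X X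
  have hφ : Function.Injective (MulAction.stabilizer E y).subtype :=
    Subgroup.subtype_injective _
  -- the coefficient of `dx y r` at a point
  have hdx : ∀ (r : MonoidAlgebra LL E) (x : X), dx y r x = rs {g : E | g⁻¹ • y = x} r := by
    intro r x
    refine (suppIn_univ r).induction (p := fun r => dx y r x = rs {g : E | g⁻¹ • y = x} r)
      ?_ ?_ ?_
    · rw [d2, map_zero, Finsupp.zero_apply]
    · intro r s h2 h3
      rw [d3, map_add, Finsupp.add_apply, h2, h3]
    · intro g _ a
      rw [d1, Finsupp.single_apply]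
      split_ifs with hg
      · rw [rs_single_mem (S := {g : E | g⁻¹ • y = x}) hg]
      · rw [rs_single_notMem (S := {g : E | g⁻¹ • y = x}) hg]
  -- the finitely many points
  let F : Finset X := Finset.univ.biUnion fun q : Q => Finset.univ.biUnion fun a : A =>
    (dx y (m q a)).support
  have hF : ∀ q a x, x ∉ F → dx y (m q a) x = 0 := by
    intro q a x hx
    by_contra h2
    exact hx (Finset.mem_biUnion.2 ⟨q, Finset.mem_univ _, Finset.mem_biUnion.2
      ⟨a, Finset.mem_univ _, Finsupp.mem_support_iff.2 h2⟩⟩)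
  have hτ : ∀ x : F, ∃ g : E, g⁻¹ • y = (x : X) := by
    rintro ⟨x, hx⟩
    obtain ⟨q, -, hx⟩ := Finset.mem_biUnion.1 hx
    obtain ⟨a, -, hx⟩ := Finset.mem_biUnion.1 hx
    rw [Finsupp.mem_support_iff, hdx] at hx
    by_contra h2
    push Not at h2
    have h3 : {g : E | g⁻¹ • y = x} = ∅ := by
      ext g
      simp only [Set.mem_ofPred_eq, Set.mem_empty_iff_false, iff_false]
      exact h2 g
    rw [h3] at hx
    refine hx ?_
    ext g
    rw [coeff_rs_notMem _ (Set.notMem_empty g)]
    rfl
  choose τ hτ using hτ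
  have hu1 : ∀ g : E, (MonoidAlgebra.single g⁻¹ (1 : LL) : MonoidAlgebra LL E) *
      MonoidAlgebra.single g 1 = 1 := by
    intro g
    rw [MonoidAlgebra.single_mul_single, inv_mul_cancel, one_mul, MonoidAlgebra.one_def]
  have hM : ∀ (q : Q) (b : A × F), ∃ M : MonoidAlgebra LL (MulAction.stabilizer E y),
      inc (MulAction.stabilizer E y).subtype M =
        dx y (m q b.1) b.2 * MonoidAlgebra.single (τ b.2)⁻¹ (1 : LL) := by
    intro q b
    rw [← suppIn_range _ hφ, hdx]
    refine (rs_supp {g : E | g⁻¹ • y = (b.2 : X)} (m q b.1)).mul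
      (SuppIn.single (S := {(τ b.2)⁻¹}) rfl 1) ?_
    rintro g hg _ rfl
    rw [Subgroup.range_subtype]
    show (g * (τ b.2)⁻¹) • y = y
    rw [mul_smul, hτ b.2]
    have hg' : g⁻¹ • y = (b.2 : X) := hg
    rw [← hg', smul_inv_smul]
  choose M hM using hM
  have hMd : ∀ (q : Q) (b : A × F), dx y (m q b.1) b.2 =
      inc (MulAction.stabilizer E y).subtype (M q b) * MonoidAlgebra.single (τ b.2) (1 : LL) := by
    intro q b
    rw [hM, mul_assoc, hu1, mul_one]
  have hrel : ∀ c : Q → MonoidAlgebra LL E, (∀ a, ∑ q, c q • dx y (m q a) = 0) ↔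
      ∀ b : A × F, ∑ q, c q * inc (MulAction.stabilizer E y).subtype (M q b) = 0 := by
    intro c
    constructor
    · intro h2 b
      have h3 := DFunLike.congr_fun (h2 b.1) (b.2 : X)
      rw [Finsupp.finsetSum_apply, Finsupp.zero_apply] at h3
      have h4 : ∑ q, c q * inc (MulAction.stabilizer E y).subtype (M q b) =
          (∑ q, (c q • dx y (m q b.1)) (b.2 : X)) * MonoidAlgebra.single (τ b.2)⁻¹ (1 : LL) := by
        rw [Finset.sum_mul]
        refine Finset.sum_congr rfl fun q _ => ?_
        rw [hM, Finsupp.smul_apply, smul_eq_mul, mul_assoc]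
      rw [h4, h3, zero_mul]
    · intro h2 a
      ext1 x
      rw [Finsupp.finsetSum_apply, Finsupp.zero_apply]
      by_cases hx : x ∈ F
      · have h3 := h2 (a, ⟨x, hx⟩)
        have h4 : ∑ q, (c q • dx y (m q a)) x =
            (∑ q, c q * inc (MulAction.stabilizer E y).subtype (M q (a, ⟨x, hx⟩))) *
              MonoidAlgebra.single (τ ⟨x, hx⟩) (1 : LL) := by
          rw [Finset.sum_mul]
          refine Finset.sum_congr rfl fun q _ => ?_
          rw [Finsupp.smul_apply, smul_eq_mul, hMd q (a, ⟨x, hx⟩), mul_assoc]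
        rw [h4, h3, zero_mul]
      · refine Finset.sum_eq_zero fun q _ => ?_
        rw [Finsupp.smul_apply, hF q a x hx, smul_zero]
  obtain ⟨T, κ, hκ, hκ'⟩ := RelOneAux.fgRel (MulAction.stabilizer E y).subtype hφ hK Q (A × F) M
  refine ⟨T, fun i q => inc (MulAction.stabilizer E y).subtype (κ i q), fun i => ?_,
    fun c hc => hκ' c ((hrel c).1 hc)⟩
  refine (hrel (fun q => inc (MulAction.stabilizer E y).subtype (κ i q))).2 fun b => ?_
  have h2 := congrArg (inc (MulAction.stabilizer E y).subtype) (hκ i b)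
  rw [map_sum, map_zero] at h2
  rw [← h2]
  refine Finset.sum_congr rfl fun q _ => ?_
  rw [map_mul]

end Pool.Agent.WaldTL
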