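import Mathlib
import Pool.Agent.Lib.MP_8f66f0_al_WaldTL.Defs

/-! A3 (Tw): properties of the twisted map of a matrix (helper98). -/

set_option autoImplicit false

namespace Pool.Agent.WaldTL

open Pool.Agent.Wald Finsupp

private theorem lc_dx {LL : Type} [CommRing LL] (h1 : S_DxA LL) {E X : Type} [Group E]
    [MulAction E X] (x : X) (m r : MonoidAlgebra LL E) :
    Finsupp.linearCombination (MonoidAlgebra LL E) (fun y : X => dx y r) (dx x m) =
      dx x (m * r) := by
  obtain ⟨a1, a2, a3, a4, -, -, -⟩ := h1 E X X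
  induction m using MonoidAlgebra.induction_linear with
  | zero => rw [a2, map_zero, zero_mul, a2]
  | add m m' hm hm' => rw [a3, map_add, hm, hm', add_mul, a3]
  | single g n =>
    rw [a1, Finsupp.linearCombination_single, ← a4, smul_inv_smul]

theorem tw_props (LL : Type) [CommRing LL] (h1 : S_DxA LL) (h2 : S_DxSl LL) : S_Tw LL := by
  intro E X Y _ _ _ A B _ _ h
  have p1 : ∀ (x : X) (m : A → MonoidAlgebra LL E) (b : B), tw h (fun a => dx x (m a)) b =
      dx x (∑ a, m a * h a b) := by
    intro x m b
    obtain ⟨a1, a2, a3, a4, -, -, -⟩ := h1 E X X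
    let φ : MonoidAlgebra LL E →+ (X →₀ MonoidAlgebra LL E) :=
      { toFun := dx x, map_zero' := a2 x, map_add' := a3 x }
    have hφ : dx x (∑ a, m a * h a b) = ∑ a, dx x (m a * h a b) := map_sum φ _ _
    rw [hφ]
    unfold tw
    exact Finset.sum_congr rfl fun a _ => lc_dx h1 x (m a) (h a b)
  have p2 : ∀ (Q : Type) [Fintype Q] (c : Q → MonoidAlgebra LL E)
      (z : Q → A → (X →₀ MonoidAlgebra LL E)) (b : B),
      tw h (fun a => ∑ q, c q • z q a) b = ∑ q, c q • tw h (z q) b := by
    intro Q _ c z b
    unfold tw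
    simp only [map_sum, map_smul, Finset.smul_sum]
    exact Finset.sum_comm
  refine ⟨p1, p2, ?_, ?_⟩
  · intro f hf z b
    obtain ⟨-, -, -, -, -, -, a7⟩ := h1 E X Y
    have hs : ∀ g : A → (X →₀ MonoidAlgebra LL E), (∑ a, g a).mapDomain f =
        ∑ a, (g a).mapDomain f := fun g => map_sum (Finsupp.mapDomain.addMonoidHom f) g _
    unfold tw
    rw [hs]
    refine Finset.sum_congr rfl fun a _ => ?_
    rw [Finsupp.linearCombination_mapDomain]
    have h3 : ∀ z : X →₀ MonoidAlgebra LL E,
        (Finsupp.linearCombination (MonoidAlgebra LL E) (fun x : X => dx x (h a b)) z).mapDomain f =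
        Finsupp.linearCombination (MonoidAlgebra LL E)
          ((fun y : Y => dx y (h a b)) ∘ f) z := by
      intro z
      have h4 := LinearMap.congr_fun (Finsupp.lhom_ext
        (φ := (Finsupp.lmapDomain (MonoidAlgebra LL E) (MonoidAlgebra LL E) f).comp
          (Finsupp.linearCombination (MonoidAlgebra LL E) (fun x : X => dx x (h a b))))
        (ψ := Finsupp.linearCombination (MonoidAlgebra LL E) ((fun y : Y => dx y (h a b)) ∘ f))
        (fun x c => by
          rw [LinearMap.comp_apply, Finsupp.linearCombination_single,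
            Finsupp.linearCombination_single, map_smul, Finsupp.lmapDomain_apply, a7 f hf]
          rfl)) z
      exact h4
    rw [h3]
  · intro S κ hκ x hx b
    have h3 : tw h (fun a => ∑ x ∈ S, dx x (κ x a)) b = ∑ x ∈ S, dx x (∑ a, κ x a * h a b) := by
      have h4 := p2 S (fun _ => 1) (fun q a => dx (q : X) (κ q a)) b
      have h5 : (fun a => ∑ q : S, (1 : MonoidAlgebra LL E) • dx (q : X) (κ q a)) =
          fun a => ∑ x ∈ S, dx x (κ x a) := by
        funext a
        rw [← Finset.sum_coe_sort S]
        exact Finset.sum_congr rfl fun q _ => one_smul _ _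
      rw [h5] at h4
      rw [h4, ← Finset.sum_coe_sort S]
      refine Finset.sum_congr rfl fun q _ => ?_
      rw [one_smul, p1]
    exact (h2 E X).1 S (fun x => ∑ a, κ x a * h a b) (by rw [← h3]; exact hκ b) x hx

end Pool.Agent.WaldTL
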