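import Pool.Agent.Lib.MP_8f66f0_al_WaldTL.DxA
import Pool.Agent.Lib.MP_8f66f0_al_WaldTL.DxSl
import Pool.Agent.Lib.MP_8f66f0_al_WaldTL.Tw
import Pool.Agent.Lib.MP_8f66f0_al_WaldTL.RelOne
import Pool.Agent.Lib.MP_8f66f0_al_WaldTL.Rel
import Pool.Agent.Lib.MP_8f66f0_al_WaldTL.BdE
import Pool.Agent.Lib.MP_8f66f0_al_WaldTL.C1T

/-! Condition (C1) for groups which act on trees such that the group rings of all stabilizers are
coherent. -/

set_option autoImplicit false

namespace Pool.Agent.WaldTL

open Pool.Agent.WaldT (TreeAct KerFG)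
open Pool.Agent.Wald (C1)

/-- A group which acts on a tree such that the group rings over `LL` of all vertex and edge
stabilizers are coherent satisfies condition (C1) over `LL`. -/
theorem c1_of_tree (LL : Type) [CommRing LL] {E : Type} [Group E] (T : TreeAct E)
    (hV : ∀ v : T.V, KerFG (MonoidAlgebra LL (MulAction.stabilizer E v)))
    (hE : ∀ e : T.Ed, KerFG (MonoidAlgebra LL (MulAction.stabilizer E e))) :
    C1 (MonoidAlgebra LL E) :=
  c1T LL (dxA LL) (dxSl LL) (tw_props LL (dxA LL) (dxSl LL)) (rel LL (dxA LL) (relOne LL (dxA LL)))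
    (bdE LL) E T hV hE

end Pool.Agent.WaldTL
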