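import Mathlib
import Pool.Agent.Lib.MP_8f66f0_al_WaldTL.Defs

/-! A1: basic properties of `dx` (proof by helper71, coefficients changed). -/

set_option autoImplicit false

namespace Pool.Agent.WaldTL

open Pool.Agent.Wald Finsupp

section DxA

variable {LL E X Y : Type} [CommRing LL] [Group E] [MulAction E X] [MulAction E Y]

private theorem dxA_single (x : X) (g : E) (a : LL) :
    dx x (MonoidAlgebra.single g a) = single (g⁻¹ • x) (MonoidAlgebra.single g a) := by
  unfold dx
  rw [MonoidAlgebra.coeff_single, Finsupp.sum_single_index]
  rw [MonoidAlgebra.single_zero, Finsupp.single_zero]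

private theorem dxA_zero (x : X) : dx x (0 : MonoidAlgebra LL E) = 0 := by
  unfold dx
  rw [MonoidAlgebra.coeff_zero, Finsupp.sum_zero_index]

private theorem dxA_add (x : X) (r s : MonoidAlgebra LL E) :
    dx x (r + s) = dx x r + dx x s := by
  classical
  unfold dx
  rw [MonoidAlgebra.coeff_add, Finsupp.sum_add_index']
  · intro g
    rw [MonoidAlgebra.single_zero, Finsupp.single_zero]
  · intro g a b
    rw [MonoidAlgebra.single_add, Finsupp.single_add]

private theorem dxA_smul (x : X) (g : E) (a : LL) (r : MonoidAlgebra LL E) :
    dx (g • x) (MonoidAlgebra.single g a * r) =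
      (MonoidAlgebra.single g a : MonoidAlgebra LL E) • dx x r := by
  induction r using MonoidAlgebra.induction_linear with
  | zero => rw [mul_zero, dxA_zero, dxA_zero, smul_zero]
  | add r s hr hs => rw [mul_add, dxA_add, dxA_add, smul_add, hr, hs]
  | single h b =>
    rw [MonoidAlgebra.single_mul_single, dxA_single, dxA_single, Finsupp.smul_single,
      smul_eq_mul, MonoidAlgebra.single_mul_single, mul_inv_rev, mul_smul,
      inv_smul_smul]

private theorem dxA_smul' (x : X) (g : E) (a : LL) (hg : g • x = x) (r : MonoidAlgebra LL E) :
    dx x (MonoidAlgebra.single g a * r) =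
      (MonoidAlgebra.single g a : MonoidAlgebra LL E) • dx x r := by
  have h := dxA_smul x g a r
  rw [hg] at h
  exact h

private theorem dxA_stab (x : X) (c : MonoidAlgebra LL (MulAction.stabilizer E x))
    (r : MonoidAlgebra LL E) :
    dx x (MonoidAlgebra.mapDomainRingHom LL (MulAction.stabilizer E x).subtype c * r) =
      MonoidAlgebra.mapDomainRingHom LL (MulAction.stabilizer E x).subtype c • dx x r := by
  induction c using MonoidAlgebra.induction_linear with
  | zero => rw [map_zero, zero_mul, dxA_zero, zero_smul]
  | add c d hc hd => rw [map_add, add_mul, dxA_add, add_smul, hc, hd]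
  | single g a =>
    have h1 : MonoidAlgebra.mapDomainRingHom LL (MulAction.stabilizer E x).subtype
        (MonoidAlgebra.single g a) = MonoidAlgebra.single (g : E) a := by
      rw [MonoidAlgebra.mapDomainRingHom_apply, MonoidAlgebra.mapDomain_single]
      rfl
    rw [h1]
    exact dxA_smul' x (g : E) a g.2 r

end DxA

theorem dxA (LL : Type) [CommRing LL] : S_DxA LL := by
  intro E X Y _ _ _
  refine ⟨dxA_single, dxA_zero, dxA_add, dxA_smul, dxA_stab, ?_, ?_⟩
  · intro x r
    induction r using MonoidAlgebra.induction_linear with
    | zero => rw [dxA_zero, map_zero]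
    | add r s hr hs => rw [dxA_add, map_add, hr, hs]
    | single g a => rw [dxA_single, Finsupp.linearCombination_single, smul_eq_mul, mul_one]
  · intro f hf x r
    induction r using MonoidAlgebra.induction_linear with
    | zero => rw [dxA_zero, dxA_zero, Finsupp.mapDomain_zero]
    | add r s hr hs => rw [dxA_add, dxA_add, Finsupp.mapDomain_add, hr, hs]
    | single g a => rw [dxA_single, dxA_single, Finsupp.mapDomain_single, hf]

end Pool.Agent.WaldTL
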